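import Mathlib
import Pool.Agent.Q76.DV.Fin

set_option autoImplicit false

namespace Pool.Agent.Results.MP_8dbee4_ag.DivisibilityLaw

/-- `N` divides the degree of the curve with the homogeneous prime ideal `I` (the eventual value of
the difference of the Hilbert function of `ℂ[x]/I`). -/
def DividesDegree (N : ℕ) {m : ℕ} (I : Ideal (MvPolynomial (Fin m) ℂ)) : Prop :=
  ∃ K : ℕ, ∀ k : ℕ, K ≤ k →
    (N : ℤ) ∣
      (Module.finrank ℂ (Submodule.map (Ideal.Quotient.mkₐ ℂ I).toLinearMap
          (MvPolynomial.homogeneousSubmodule (Fin m) ℂ (k + 1))) : ℤ) -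
      (Module.finrank ℂ (Submodule.map (Ideal.Quotient.mkₐ ℂ I).toLinearMap
          (MvPolynomial.homogeneousSubmodule (Fin m) ℂ k)) : ℤ)

/-- `N` divides the degree of every curve on a very general complete intersection of the degrees
`d 0, …, d (r - 1)` in `P^(n+r)` over `ℂ`: for all forms of these degrees off countably many proper
closed sets (the zero sets of the nonzero polynomials `bad j` in the coefficients) and every curve
on their common zero locus (homogeneous prime ideal `I` with `dim ℂ[x]/I = 2` which contains the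
forms), `N` divides the degree of the curve. -/
def Divides (N n r : ℕ) (d : Fin r → ℕ) : Prop :=
  ∃ bad : ℕ → MvPolynomial (Σ i : Fin r, {m : Fin (n + r + 1) →₀ ℕ // m.degree = d i}) ℂ,
    (∀ j, bad j ≠ 0) ∧
    ∀ f : Fin r → MvPolynomial (Fin (n + r + 1)) ℂ,
      (∀ i, f i ∈ MvPolynomial.homogeneousSubmodule (Fin (n + r + 1)) ℂ (d i)) →
      (∀ j, MvPolynomial.eval (fun x => MvPolynomial.coeff x.2.1 (f x.1)) (bad j) ≠ 0) →
      ∀ I : Ideal (MvPolynomial (Fin (n + r + 1)) ℂ),
        (∀ p ∈ I, ∀ k : ℕ, MvPolynomial.homogeneousComponent k p ∈ I) →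
        I.IsPrime →
        ringKrullDim (MvPolynomial (Fin (n + r + 1)) ℂ ⧸ I) = 2 →
        (∀ i, f i ∈ I) → DividesDegree N I

/-- * If `Divides N n r` holds for two tuples of degrees which differ only in the `i`-th degree,
  then it also holds with the sum of the two `i`-th degrees at this place.
* For `n, N ≥ 1` and all `r` there are `D` and a finite set `G` of tuples of divisors of
  `N ^ (n * (1 + ⌊log₂ n⌋))` such that for every `d` with `Divides N n r d` some `g ∈ G` satisfies
  `g i ∣ d i` for all `i`, and conversely every `d` with this property and all `d i > D` satisfies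
  `Divides N n r d`.
* For `n, N ≥ 1` there are `D` and `g` with `N ∣ g ∣ N ^ (n * (1 + ⌊log₂ n⌋))` such that, for one
  hypersurface of degree `d`, `Divides` implies `g ∣ d`, and conversely if `d > D`. -/
theorem result :
    (∀ (N n r : ℕ) (d : Fin r → ℕ) (i : Fin r) (a b : ℕ),
      Divides N n r (Function.update d i a) → Divides N n r (Function.update d i b) →
        Divides N n r (Function.update d i (a + b))) ∧
    (∀ n r N : ℕ, 0 < n → 0 < N → ∃ (D : ℕ) (G : Finset (Fin r → ℕ)),
      (∀ g ∈ G, ∀ i, g i ∣ N ^ (n * (1 + Nat.log 2 n))) ∧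
      (∀ d, Divides N n r d → ∃ g ∈ G, ∀ i, g i ∣ d i) ∧
      ∀ d : Fin r → ℕ, (∀ i, D < d i) → (∃ g ∈ G, ∀ i, g i ∣ d i) → Divides N n r d) ∧
    (∀ n N : ℕ, 0 < n → 0 < N → ∃ D g : ℕ, N ∣ g ∧ g ∣ N ^ (n * (1 + Nat.log 2 n)) ∧
      (∀ d : Fin 1 → ℕ, Divides N n 1 d → g ∣ d 0) ∧
      ∀ d : Fin 1 → ℕ, D < d 0 → g ∣ d 0 → Divides N n 1 d) :=
  ⟨fun _ _ _ d i a b h1 h2 => Pool.Agent.Q76.DV.divX_add d i a b h1 h2,
    Pool.Agent.Q76.DV.law_all, Pool.Agent.Q76.DV.law_hyp⟩

end Pool.Agent.Results.MP_8dbee4_ag.DivisibilityLaw
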