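import Mathlib
import Pool.Agent.Q76.DV.More

set_option autoImplicit false

namespace Pool.Agent.Results.MP_8dbee4_ag.MoreEquations

/-- `N` divides the degree of the curve with the homogeneous prime ideal `I` (the eventual value of
the difference of the Hilbert function of `ℂ[x]/I`). -/
def DividesDegree (N : ℕ) {m : ℕ} (I : Ideal (MvPolynomial (Fin m) ℂ)) : Prop :=
  ∃ K : ℕ, ∀ k : ℕ, K ≤ k →
    (N : ℤ) ∣
      (Module.finrank ℂ (Submodule.map (Ideal.Quotient.mkₐ ℂ I).toLinearMap
          (MvPolynomial.homogeneousSubmodule (Fin m) ℂ (k + 1))) : ℤ) -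
      (Module.finrank ℂ (Submodule.map (Ideal.Quotient.mkₐ ℂ I).toLinearMap
          (MvPolynomial.homogeneousSubmodule (Fin m) ℂ k)) : ℤ)

/-- `N` divides the degree of every curve on a very general complete intersection of the degrees
`d 0, …, d (r - 1)` in `P^(n+r)` over `ℂ`: for all forms of these degrees off countably many proper
closed sets (the zero sets of the nonzero polynomials `bad j` in the coefficients) and every curve
on their common zero locus (homogeneous prime ideal `I` with `dim ℂ[x]/I = 2` which contains the
forms), `N` divides the degree of the curve. -/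
def Divides (N n r : ℕ) (d : Fin r → ℕ) : Prop :=
  ∃ bad : ℕ → MvPolynomial (Σ i : Fin r, {m : Fin (n + r + 1) →₀ ℕ // m.degree = d i}) ℂ,
    (∀ j, bad j ≠ 0) ∧
    ∀ f : Fin r → MvPolynomial (Fin (n + r + 1)) ℂ,
      (∀ i, f i ∈ MvPolynomial.homogeneousSubmodule (Fin (n + r + 1)) ℂ (d i)) →
      (∀ j, MvPolynomial.eval (fun x => MvPolynomial.coeff x.2.1 (f x.1)) (bad j) ≠ 0) →
      ∀ I : Ideal (MvPolynomial (Fin (n + r + 1)) ℂ),
        (∀ p ∈ I, ∀ k : ℕ, MvPolynomial.homogeneousComponent k p ∈ I) →
        I.IsPrime →
        ringKrullDim (MvPolynomial (Fin (n + r + 1)) ℂ ⧸ I) = 2 →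
        (∀ i, f i ∈ I) → DividesDegree N I

/-- * If `N` divides the degrees of all curves on a very general complete intersection of dimension
  `n` whose degrees are some of the numbers `d 0, …, d (r' - 1)` (those with the indices `e i`), then
  also on a very general complete intersection of dimension `n` and degrees `d 0, …, d (r' - 1)`.
* Suppose that the question has a positive answer for dimension `n` and `s` equations with the bound
  `D`. Then for all `r ≥ s` and all `r` degrees larger than `D` such that every prime divides at most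
  `s` of them, the product of the degrees divides the degree of every curve on a very general
  complete intersection of dimension `n` and these degrees. -/
theorem result :
    (∀ (N n r r' : ℕ) (e : Fin r → Fin r') (d : Fin r' → ℕ), Function.Injective e →
      Divides N n r (fun i => d (e i)) → Divides N n r' d) ∧
    (∀ n s D : ℕ, (∀ d : Fin s → ℕ, (∀ i, D < d i) → Divides (∏ i, d i) n s d) →
      ∀ (r : ℕ) (d : Fin r → ℕ), s ≤ r → (∀ i, D < d i) →
        (∀ p : ℕ, p.Prime → (Finset.univ.filter fun i => p ∣ d i).card ≤ s) →
        Divides (∏ i, d i) n r d) :=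
  ⟨fun _ _ _ _ e d he h => Pool.Agent.Q76.DV.more_fin e he d h,
    fun _ _ _ hQ _ d hr hd hp => Pool.Agent.Q76.DV.from_s hQ hr d hd hp⟩

end Pool.Agent.Results.MP_8dbee4_ag.MoreEquations
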