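import Mathlib
import Pool.Agent.Q76.DV.More
import Pool.Agent.Q76.DV.PP
import Pool.Agent.Q76.DV.PPr

set_option autoImplicit false

namespace Pool.Agent.Results.MP_8dbee4_ag.PrimePowerDegrees

/-- `N` divides the degree of the curve with the homogeneous prime ideal `I` (the eventual value of
the difference of the Hilbert function of `ℂ[x]/I`). -/
def DividesDegree (N : ℕ) {m : ℕ} (I : Ideal (MvPolynomial (Fin m) ℂ)) : Prop :=
  ∃ K : ℕ, ∀ k : ℕ, K ≤ k →
    (N : ℤ) ∣
      (Module.finrank ℂ (Submodule.map (Ideal.Quotient.mkₐ ℂ I).toLinearMap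
          (MvPolynomial.homogeneousSubmodule (Fin m) ℂ (k + 1))) : ℤ) -
      (Module.finrank ℂ (Submodule.map (Ideal.Quotient.mkₐ ℂ I).toLinearMap
          (MvPolynomial.homogeneousSubmodule (Fin m) ℂ k)) : ℤ)

/-- `N` divides the degree of every curve on a very general complete intersection of the degrees
`d 0, …, d (r - 1)` in `P^(n+r)` over `ℂ`: for all forms of these degrees off countably many proper
closed sets (the zero sets of the nonzero polynomials `bad j` in the coefficients) and every curve
on their common zero locus (homogeneous prime ideal `I` with `dim ℂ[x]/I = 2` which contains the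
forms), `N` divides the degree of the curve. -/
def Divides (N n r : ℕ) (d : Fin r → ℕ) : Prop :=
  ∃ bad : ℕ → MvPolynomial (Σ i : Fin r, {m : Fin (n + r + 1) →₀ ℕ // m.degree = d i}) ℂ,
    (∀ j, bad j ≠ 0) ∧
    ∀ f : Fin r → MvPolynomial (Fin (n + r + 1)) ℂ,
      (∀ i, f i ∈ MvPolynomial.homogeneousSubmodule (Fin (n + r + 1)) ℂ (d i)) →
      (∀ j, MvPolynomial.eval (fun x => MvPolynomial.coeff x.2.1 (f x.1)) (bad j) ≠ 0) →
      ∀ I : Ideal (MvPolynomial (Fin (n + r + 1)) ℂ),
        (∀ p ∈ I, ∀ k : ℕ, MvPolynomial.homogeneousComponent k p ∈ I) →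
        I.IsPrime →
        ringKrullDim (MvPolynomial (Fin (n + r + 1)) ℂ ⧸ I) = 2 →
        (∀ i, f i ∈ I) → DividesDegree N I

/-- * The question for hypersurfaces (of dimension `n ≥ 1`) has a positive answer if and only if,
  for some `D`, it has a positive answer for all prime power degrees `p ^ k > D` and for each prime
  power `p ^ k ≤ D` there is one degree `e`, not divisible by `p ^ (k + 1)`, such that `p ^ k`
  divides the degrees of all curves on a very general hypersurface of degree `e`.
* For complete intersections of dimension `n` with `r` equations the question has a positive answer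
  if and only if, for some `D`, for all primes `p` and all degrees `d i > D` which are powers of `p`
  or at most `D * (D + 4)`, every power of `p` which divides the product of the `d i` divides the
  degrees of all curves on a very general complete intersection of degrees `d`.
* If `N` divides the degrees of all curves on a very general complete intersection of dimension
  `n'` and degrees `d`, then also in every smaller dimension `n`, with the same degrees. So a
  positive answer for dimension `n'` implies one for all smaller dimensions `n` (with the same bound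
  `D`). -/
theorem result :
    (∀ n : ℕ, 0 < n →
      ((∃ D : ℕ, ∀ d : ℕ, D < d → Divides d n 1 fun _ => d) ↔
        ∃ D : ℕ, ∀ p k : ℕ, p.Prime →
          (D < p ^ k → Divides (p ^ k) n 1 fun _ => p ^ k) ∧
          (p ^ k ≤ D → ∃ e : ℕ, ¬ p ^ (k + 1) ∣ e ∧ Divides (p ^ k) n 1 fun _ => e))) ∧
    (∀ n r : ℕ,
      ((∃ D : ℕ, ∀ d : Fin r → ℕ, (∀ i, D < d i) → Divides (∏ i, d i) n r d) ↔
        ∃ D : ℕ, ∀ (p s : ℕ) (d : Fin r → ℕ), p.Prime → (∀ i, D < d i) →
          (∀ i, (∃ k, d i = p ^ k) ∨ d i ≤ D * (D + 4)) → p ^ s ∣ ∏ i, d i →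
          Divides (p ^ s) n r d)) ∧
    (∀ (N n n' r : ℕ) (d : Fin r → ℕ), n ≤ n' → Divides N n' r d → Divides N n r d) ∧
    (∀ n n' r D : ℕ, n ≤ n' →
      (∀ d : Fin r → ℕ, (∀ i, D < d i) → Divides (∏ i, d i) n' r d) →
        ∀ d : Fin r → ℕ, (∀ i, D < d i) → Divides (∏ i, d i) n r d) :=
  ⟨fun n hn => Pool.Agent.Q76.DV.pp n hn, fun n r => Pool.Agent.Q76.DV.ppr n r,
    fun _ _ _ _ _ hn h => Pool.Agent.Q76.DV.sec_fin hn h,
    fun _ _ _ _ hn h d hd => Pool.Agent.Q76.DV.sec_fin hn (h d hd)⟩

end Pool.Agent.Results.MP_8dbee4_ag.PrimePowerDegrees
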