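import Mathlib
import Pool.Agent.Q55.TypDeg
import Pool.Agent.Z894.SP.Fin

/-!
# The degrees of the curves on complete intersections with typical degrees

For complete intersections of dimension `n` and many equations, whose degrees are a typical tuple of a box, the
degree of every curve is divisible by an explicit number which grows like `exp (c r log r)`.
-/

set_option autoImplicit false

open Finset

namespace Pool.Agent.Results.MP_8dbee4_ag.TypicalDegrees

/-- the indices of the coefficients of `r` forms of degrees `d_1, …, d_r` in `n + r + 1` variables -/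
abbrev Coeffs (n r : ℕ) (d : Fin r → ℕ) : Type :=
  Σ i : Fin r, {μ : Fin (n + r + 1) →₀ ℕ // μ.degree = d i}

/-- the Hilbert function of `ℂ[x_1, …, x_m] / I` -/
noncomputable def hilb {m : ℕ} (I : Ideal (MvPolynomial (Fin m) ℂ)) (k : ℕ) : ℤ :=
  Module.finrank ℂ (Submodule.map (Ideal.Quotient.mkₐ ℂ I).toLinearMap
    (MvPolynomial.homogeneousSubmodule (Fin m) ℂ k))

/-- `I` is the ideal of a curve: a homogeneous prime ideal with `dim ℂ[x] / I = 2` -/
def IsCurve {m : ℕ} (I : Ideal (MvPolynomial (Fin m) ℂ)) : Prop :=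
  (∀ p ∈ I, ∀ k : ℕ, MvPolynomial.homogeneousComponent k p ∈ I) ∧ I.IsPrime ∧
    ringKrullDim (MvPolynomial (Fin m) ℂ ⧸ I) = 2

/-- the degree (the eventual value of the difference of the Hilbert function) is divisible by `Q` -/
def DvdDegree {m : ℕ} (Q : ℕ) (I : Ideal (MvPolynomial (Fin m) ℂ)) : Prop :=
  ∃ K : ℕ, ∀ k : ℕ, K ≤ k → (Q : ℤ) ∣ hilb I (k + 1) - hilb I k

/-- On the very general complete intersection of degrees `d_1, …, d_r` in `P^(n+r)` over `ℂ` (off countably many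
proper closed subsets, the `bad j`, of the parameter space) the degree of every curve is divisible by `Q`. -/
def EveryCurve (n r : ℕ) (d : Fin r → ℕ) (Q : ℕ) : Prop :=
  ∃ bad : ℕ → MvPolynomial (Coeffs n r d) ℂ, (∀ j, bad j ≠ 0) ∧
    ∀ f : Fin r → MvPolynomial (Fin (n + r + 1)) ℂ, (∀ i, (f i).IsHomogeneous (d i)) →
      (∀ j, MvPolynomial.eval (fun x => MvPolynomial.coeff x.2.1 (f x.1)) (bad j) ≠ 0) →
      ∀ I : Ideal (MvPolynomial (Fin (n + r + 1)) ℂ), IsCurve I → (∀ i, f i ∈ I) → DvdDegree Q I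

/-- the largest `a` with `a = 0` or `m a + l (m ^ 2 - 1) ≤ v`, where `m = n + ⌊(n - 1) / (p - 1)⌋`, `l = ⌊log_p n⌋`;
this is `⌊v / n⌋` for `p > n` -/
def expo (n p v : ℕ) : ℕ :=
  (v - Nat.log p n * ((n + (n - 1) / (p - 1)) ^ 2 - 1)) / (n + (n - 1) / (p - 1))

/-- the primes up to `r / (8 (A + 1) log r)` -/
noncomputable def small (r A : ℕ) : Finset ℕ :=
  (range (⌊(r : ℝ) / (8 * (A + 1) * Real.log r)⌋₊ + 1)).filter Nat.Prime

/-- the product of the `p ^ expo n p ⌊r / (8 p)⌋` over the primes `p ≤ r / (8 (A + 1) log r)` -/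
noncomputable def divisor (n r A : ℕ) : ℕ := ∏ p ∈ small r A, p ^ expo n p (r / (8 * p))

lemma fac (P : Finset ℕ) (hP : ∀ p ∈ P, p.Prime) (e : ℕ → ℕ) {q : ℕ} (hq : q.Prime)
    (hd : q ∣ ∏ p ∈ P, p ^ e p) : q ∈ P ∧ 1 ≤ e q ∧ (∏ p ∈ P, p ^ e p).factorization q = e q := by
  classical
  have h1 : (∏ p ∈ P, p ^ e p).factorization q = if q ∈ P then e q else 0 := by
    rw [Nat.factorization_prod (fun p hp => pow_ne_zero _ (hP p hp).ne_zero), Finset.sum_apply']
    have h2 : ∀ p ∈ P, (p ^ e p).factorization q = if p = q then e q else 0 := by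
      intro p hp
      rw [(hP p hp).factorization_pow, Finsupp.single_apply]
      split_ifs with h
      · rw [h]
      · rfl
    rw [sum_congr rfl h2, Finset.sum_ite_eq']
  have hne : ∏ p ∈ P, p ^ e p ≠ 0 := Finset.prod_ne_zero_iff.2 fun p hp => pow_ne_zero _ (hP p hp).ne_zero
  have h3 : 1 ≤ (∏ p ∈ P, p ^ e p).factorization q := (hq.dvd_iff_one_le_factorization hne).1 hd
  rw [h1] at h3 ⊢
  split_ifs at h3 ⊢ with h
  · exact ⟨h, h3, rfl⟩
  · omega

lemma expo_le {n p v : ℕ} (hn : 1 ≤ n) (h : 1 ≤ expo n p v) :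
    (n + (n - 1) / (p - 1)) * expo n p v + Nat.log p n * ((n + (n - 1) / (p - 1)) ^ 2 - 1) ≤ v := by
  unfold expo at h ⊢
  generalize Nat.log p n * ((n + (n - 1) / (p - 1)) ^ 2 - 1) = b at *
  generalize hm : n + (n - 1) / (p - 1) = m at *
  have hm0 : 0 < m := by
    rw [← hm]
    exact Nat.lt_of_lt_of_le hn (Nat.le_add_right _ _)
  have h1 : m * ((v - b) / m) ≤ v - b := Nat.mul_div_le _ _
  have h2 : m * 1 ≤ m * ((v - b) / m) := Nat.mul_le_mul_left _ h
  omega

/-- **Theorem.** Let `n ≥ 1`, `r ≥ 2`, `A ≥ 0` and `X ≥ r`. For every box `∏ (Y_i, Y_i + X]` and all but `X ^ r / r ^ A`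
of the tuples `(d_1, …, d_r)` of the box, the degree of every curve on the very general complete intersection of
degrees `d_1, …, d_r` in `P^(n+r)` is divisible by `divisor n r A`. -/
theorem result (n r A X : ℕ) (hn : 1 ≤ n) (hr : 2 ≤ r) (hX : r ≤ X) (Y : Fin r → ℕ) :
    ∃ E : Finset (Fin r → ℕ), (E.card : ℝ) ≤ (X : ℝ) ^ r / (r : ℝ) ^ A ∧
      ∀ d : Fin r → ℕ, (∀ i, Y i < d i ∧ d i ≤ Y i + X) → d ∉ E → EveryCurve n r d (divisor n r A) := by
  classical
  obtain ⟨E, hE, h⟩ := Pool.Agent.Q55.TypDeg.typical r A X 1 hr hX le_rfl Y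
  refine ⟨E, hE, fun d hd hdE => ?_⟩
  have h1 := h d hd hdE
  have hP : ∀ p ∈ small r A, p.Prime := fun p hp => (mem_filter.1 hp).2
  obtain ⟨bad, hbad, hmain⟩ := Pool.Agent.Z894.SP.final n r (by omega) d
  refine ⟨bad, hbad, fun f hf hfb I hI hfI => ?_⟩
  obtain ⟨hI, hIp, hdim⟩ := hI
  refine hmain f hf hfb I hI hIp hdim hfI (divisor n r A) ?_ ?_
  · exact Finset.prod_pos fun p hp => pow_pos (hP p hp).pos _
  · intro p hp hpd
    obtain ⟨hps, he, hfac⟩ := fac (small r A) hP (fun p => expo n p (r / (8 * p))) hp hpd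
    have h2 : 1 * (r / (8 * 1 * p)) ≤ (univ.filter (fun i => p ∣ d i)).card := h1 p hps
    rw [one_mul, mul_one] at h2
    have h3 : (divisor n r A).factorization p = expo n p (r / (8 * p)) := hfac
    rw [h3]
    have h4 := (expo_le (p := p) hn he).trans h2
    calc p ^ ((n + (n - 1) / (p - 1)) * expo n p (r / (8 * p)) +
            Nat.log p n * ((n + (n - 1) / (p - 1)) ^ 2 - 1))
        ∣ p ^ (univ.filter (fun i => p ∣ d i)).card := pow_dvd_pow _ h4
      _ = ∏ i ∈ univ.filter (fun i => p ∣ d i), p := (prod_const _).symm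
      _ ∣ ∏ i ∈ univ.filter (fun i => p ∣ d i), d i := by
          apply prod_dvd_prod_of_dvd
          intro i hi
          exact (mem_filter.1 hi).2
      _ ∣ ∏ i, d i := prod_dvd_prod_of_subset _ _ _ (filter_subset _ _)

end Pool.Agent.Results.MP_8dbee4_ag.TypicalDegrees
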